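import Pool.Agent.H664.QK.Stm
import Pool.Graph.R_pool_sql_team_seeded_1acbe0a2.Y562.SX.Ax

/-! JOB AXF (project QK of helper664): Ax's theorem for a derivation of a subfield of `ℂ`. -/

set_option autoImplicit false

namespace Pool.Agent.H914.QK

open Pool.Agent.Y562.SX Pool.Agent.TH813

/-- Derivations of a subfield of `ℂ` extend to `ℂ`. -/
theorem ext_der (F : Subfield ℂ) (D : Derivation ℚ F F) :
    ∃ D' : Derivation ℚ ℂ ℂ, ∀ f : F, D' (f : ℂ) = (D f : ℂ) := by
  let D1 : Derivation ℚ F ℂ := (Algebra.linearMap F ℂ).compDer D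
  have hsm : Algebra.FormallySmooth F ℂ := by
    obtain ⟨s, hs⟩ := exists_isTranscendenceBasis F ℂ
    have : Algebra.IsAlgebraic (IntermediateField.adjoin F (Set.range ((↑) : s → ℂ))) ℂ :=
      hs.isAlgebraic_field
    exact .of_algebraicIndependent_of_isSeparable hs.1
  have hinj : Function.Injective (KaehlerDifferential.mapBaseChange ℚ F ℂ) := by
    rw [injective_iff_map_eq_zero]
    intro x hx
    obtain ⟨y, rfl⟩ := (Algebra.H1Cotangent.exact_δ_mapBaseChange ℚ F ℂ x).mp hx
    have : Subsingleton (Algebra.H1Cotangent F ℂ) := inferInstance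
    rw [Subsingleton.elim y 0, map_zero]
  obtain ⟨g, hg⟩ := (KaehlerDifferential.mapBaseChange ℚ F ℂ).exists_leftInverse_of_injective
    (LinearMap.ker_eq_bot.2 hinj)
  let L := LinearMap.liftBaseChange ℂ D1.liftKaehlerDifferential
  refine ⟨(L ∘ₗ g).compDer (KaehlerDifferential.D ℚ ℂ), fun f => ?_⟩
  have h1 : KaehlerDifferential.D ℚ ℂ (f : ℂ) =
      KaehlerDifferential.mapBaseChange ℚ F ℂ (1 ⊗ₜ KaehlerDifferential.D ℚ F f) := by
    rw [KaehlerDifferential.mapBaseChange_tmul, one_smul, KaehlerDifferential.map_D]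
    rfl
  show L (g (KaehlerDifferential.D ℚ ℂ (f : ℂ))) = _
  have h2 : g (KaehlerDifferential.mapBaseChange ℚ F ℂ (1 ⊗ₜ KaehlerDifferential.D ℚ F f)) =
      1 ⊗ₜ KaehlerDifferential.D ℚ F f := LinearMap.congr_fun hg _
  rw [h1, h2]
  show LinearMap.liftBaseChange ℂ D1.liftKaehlerDifferential _ = _
  rw [LinearMap.liftBaseChange_tmul, one_smul, Derivation.liftKaehlerDifferential_comp_D]
  rfl

/-- a derivation of `ℂ` is a derivation over its constants -/
noncomputable def overC (D₁ : Derivation ℚ ℂ ℂ) : Derivation (cst D₁) ℂ ℂ where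
  toFun := D₁
  map_add' := fun a b => map_add _ _ _
  map_smul' := by
    intro c w
    have hc : D₁ (c : ℂ) = 0 := c.2
    change D₁ ((c : ℂ) * w) = (c : ℂ) * D₁ w
    rw [Derivation.leibniz, hc, smul_zero, add_zero, smul_eq_mul]
  map_one_eq_zero' := D₁.map_one_eq_zero
  leibniz' := fun a b => D₁.leibniz a b

/-- the constants are algebraically closed in `ℂ` -/
theorem cst_alg (D₁ : Derivation ℚ ℂ ℂ) {w : ℂ} (hw : IsAlgebraic (cst D₁) w) : D₁ w = 0 := by
  have hint : IsIntegral (cst D₁) w := hw.isIntegral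
  have h1 := (overC D₁).map_aeval (minpoly (cst D₁) w) w
  rw [minpoly.aeval, map_zero] at h1
  have hsep : (minpoly (cst D₁) w).Separable := (minpoly.irreducible hint).separable
  have h2 : Polynomial.aeval w (Polynomial.derivative (minpoly (cst D₁) w)) ≠ 0 :=
    hsep.aeval_derivative_ne_zero (minpoly.aeval _ _)
  rw [smul_eq_mul] at h1
  exact (mul_eq_zero.1 h1.symm).resolve_left h2

theorem axF : Pool.Agent.H664.QK.S_axF := by
  intro F D n m x y v hn hy hxy hq hv
  obtain ⟨D₀, hD₀⟩ := ext_der F D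
  let ψ : F →+* ℂ := F.subtype
  have hψ : ∀ f : F, D₀ (ψ f) = ψ (D f) := fun f => hD₀ f
  refine ax D₀ hn (x := fun i => ψ (x i)) (y := fun i => ψ (y i)) (fun i => ?_) (fun i => ?_) ?_
    (fun j => ψ (v j)) ?_
  · exact (map_ne_zero ψ).2 (hy i)
  · rw [hψ, hψ, hxy, map_mul]
  · intro q hq0
    apply hq
    apply ψ.injective
    rw [map_sum, map_zero, ← hq0]
    refine Finset.sum_congr rfl fun i _ => ?_
    rw [map_mul, map_ratCast, hψ]
  · intro D₁ hD₁
    have hA : ∀ a ∈ Subfield.closure ({c : F | D c = 0} ∪ Set.range v), D₁.1 (ψ a) = 0 := by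
      intro a ha
      induction ha using Subfield.closure_induction with
      | mem a ha =>
        rcases ha with ha | ⟨j, rfl⟩
        · refine D₁.2 (ψ a) ?_
          change D₀ (ψ a) = 0
          have ha' : D a = 0 := ha
          rw [hψ, ha', map_zero]
        · exact hD₁ j
      | one => rw [map_one, Derivation.map_one_eq_zero]
      | add a b _ _ ha hb => rw [map_add, map_add, ha, hb, add_zero]
      | neg a _ ha => rw [map_neg, map_neg, ha, neg_zero]
      | inv a _ ha => rw [map_inv₀, Derivation.leibniz_inv, ha, smul_zero]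
      | mul a b _ _ ha hb =>
        rw [map_mul, Derivation.leibniz, ha, hb, smul_zero, smul_zero, add_zero]
    have hall : ∀ f : F, D₁.1 (ψ f) = 0 := by
      intro f
      obtain ⟨p, hp, hpf⟩ := hv f
      apply cst_alg
      let g : Subfield.closure ({c : F | D c = 0} ∪ Set.range v) →+* cst D₁.1 :=
        { toFun := fun a => ⟨ψ a, hA a a.2⟩
          map_one' := Subtype.ext (map_one ψ)
          map_mul' := fun a b => Subtype.ext (map_mul ψ _ _)
          map_zero' := Subtype.ext (map_zero ψ)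
          map_add' := fun a b => Subtype.ext (map_add ψ _ _) }
      refine ⟨p.map g, (Polynomial.map_ne_zero_iff g.injective).2 hp, ?_⟩
      rw [Polynomial.aeval_def, Polynomial.eval₂_map]
      have h1 : (algebraMap (cst D₁.1) ℂ).comp g = ψ.comp
          (algebraMap (Subfield.closure ({c : F | D c = 0} ∪ Set.range v)) F) := by
        ext a
        rfl
      rw [h1, ← Polynomial.hom_eval₂]
      have h2 : Polynomial.eval₂ (algebraMap
        (Subfield.closure ({c : F | D c = 0} ∪ Set.range v)) F) f p = 0 := hpf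
      rw [h2, map_zero]
    intro i
    exact ⟨hall _, hall _⟩

end Pool.Agent.H914.QK
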